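import Pool.Agent.Lib.P6DK.BMa

/-!
# P6DK.BMb: Brunn-Minkowski for a set and a disc of the complex plane
PROOF. `bm2` transported by `Complex.measurableEquivRealProd` (`Complex.volume_preserving_equiv_real_prod`), `B = ball 0 ε`,
`Complex.volume_ball : volume (ball a r) = .ofReal r ^ 2 * NNReal.pi`, so `√(volume B).toReal = √π * ε`.
-/

set_option autoImplicit false

open MeasureTheory Set Filter Topology Metric Complex
open scoped ENNReal NNReal

namespace Pool.Agent.Lib.P6DK

namespace BMbAux

/-- transport of a plane set to the product -/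
def tr (A : Set ℂ) : Set (ℝ × ℝ) := Complex.measurableEquivRealProd.symm ⁻¹' A

theorem tr_meas {A : Set ℂ} (hA : MeasurableSet A) : MeasurableSet (tr A) :=
  Complex.measurableEquivRealProd.symm.measurable hA

theorem tr_vol (A : Set ℂ) : volume (tr A) = volume A :=
  Complex.volume_preserving_equiv_real_prod.symm.measure_preimage_equiv A

theorem tr_bdd {A : Set ℂ} (hA : Bornology.IsBounded A) : Bornology.IsBounded (tr A) := by
  obtain ⟨R, hR⟩ := hA.exists_norm_le
  rw [Metric.isBounded_iff_subset_closedBall (0 : ℝ × ℝ)]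
  refine ⟨R, ?_⟩
  intro x hx
  rw [mem_closedBall, dist_zero_right]
  have h1 := hR _ hx
  have h2 : Complex.measurableEquivRealProd.symm x = ⟨x.1, x.2⟩ :=
    Complex.measurableEquivRealProd_symm_apply x
  rw [h2] at h1
  rw [Prod.norm_def]
  refine max_le ?_ ?_
  · exact (Complex.abs_re_le_norm (⟨x.1, x.2⟩ : ℂ)).trans h1
  · exact (Complex.abs_im_le_norm (⟨x.1, x.2⟩ : ℂ)).trans h1

theorem ball_vol {ε : ℝ} (hε : 0 < ε) : √(volume (ball (0 : ℂ) ε)).toReal = √Real.pi * ε := by
  rw [Complex.volume_ball, ENNReal.toReal_mul, ENNReal.toReal_pow, ENNReal.toReal_ofReal hε.le,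
    ENNReal.coe_toReal, NNReal.coe_real_pi, Real.sqrt_mul (by positivity), Real.sqrt_sq hε.le,
    mul_comm]

end BMbAux

open BMbAux in
theorem bmBall (A C : Set ℂ) (hA : MeasurableSet A) (hC : MeasurableSet C) (hAb : Bornology.IsBounded A)
    (hCt : volume C ≠ ⊤) (hA0 : 0 < volume A) (ε : ℝ) (hε : 0 < ε) (h : ∀ a ∈ A, ∀ z : ℂ, dist z a < ε → z ∈ C) :
    (√(volume A).toReal + √Real.pi * ε) ^ 2 ≤ (volume C).toReal := by
  have hB0 : 0 < volume (ball (0 : ℂ) ε) := measure_ball_pos _ _ hε
  have key := bm2 (tr A) (tr (ball (0 : ℂ) ε)) (tr C) (tr_meas hA) (tr_meas measurableSet_ball)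
    (tr_meas hC) (by rw [tr_vol]; exact hA0) (by rw [tr_vol]; exact hB0) (tr_bdd hAb)
    (tr_bdd isBounded_ball) (by rw [tr_vol]; exact hCt) ?_
  · rwa [tr_vol, tr_vol, tr_vol, ball_vol hε] at key
  · intro a ha b hb
    have hadd : Complex.measurableEquivRealProd.symm (a + b) =
        Complex.measurableEquivRealProd.symm a + Complex.measurableEquivRealProd.symm b := by
      simp only [Complex.measurableEquivRealProd_symm_apply]
      apply Complex.ext <;> simp
    change Complex.measurableEquivRealProd.symm (a + b) ∈ C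
    rw [hadd]
    refine h _ ha _ ?_
    have hb' : ‖Complex.measurableEquivRealProd.symm b‖ < ε := by
      have := hb
      change Complex.measurableEquivRealProd.symm b ∈ ball (0 : ℂ) ε at this
      rwa [mem_ball, dist_zero_right] at this
    rw [dist_eq_norm, add_sub_cancel_left]
    exact hb'

end Pool.Agent.Lib.P6DK
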