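import Pool.Agent.Lib.P6DK.Slope
import Pool.Agent.Lib.P6DK.Ar
import Pool.Agent.Lib.P6DK.BMb

/-!
# P6DK.IsoP: the isoperimetric inequality in the plane, functional form
PROOF. `slope` with `p s = 2 √π √(ar f s)` (integrable on `(0, ∞)`: `ar_int`). If `ar f s = 0` nothing is to be shown (monotonicity: `{s < f} ⊆ {z | ∃ y, ..}`, the
latter set is open and bounded, so its area is finite). If `ar f s > 0`: `bmBall` for `A = {s < f}` (open, bounded because it lies in `tsupport f`):
`(√a + √π ε)² ≥ a + 2 √π √a ε`.
-/

set_option autoImplicit false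

open MeasureTheory Set Filter Topology Metric Complex
open scoped ENNReal NNReal

namespace Pool.Agent.Lib.P6DK

theorem iso_plane (f : ℂ → ℝ) (hf : LC f) (h0 : ∀ z, 0 ≤ f z) : Iso (2 * √Real.pi) f := by
  unfold Iso
  have hsl := slope f hf h0 (fun s => 2 * √Real.pi * √(ar f s)) ((ar_int hf).const_mul _)
    (fun s => by positivity) ?_
  · rw [integral_const_mul] at hsl
    exact hsl
  · intro s hs
    refine ⟨1, one_pos, fun ε hε _ => ?_⟩
    have hAo : IsOpen {z : ℂ | s < f z} := isOpen_lt continuous_const hf.cont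
    have hAb : Bornology.IsBounded {z : ℂ | s < f z} := by
      refine hf.cpt.isCompact.isBounded.subset ?_
      intro z hz
      apply subset_tsupport
      intro h
      rw [Set.mem_ofPred_eq, h] at hz
      exact absurd hz (not_lt.mpr hs.le)
    have hC : {z : ℂ | ∃ y, dist z y < ε ∧ s < f y} = Metric.thickening ε {z : ℂ | s < f z} := by
      ext z
      rw [Metric.mem_thickening_iff]
      constructor
      · rintro ⟨y, h1, h2⟩
        exact ⟨y, h2, h1⟩
      · rintro ⟨y, h1, h2⟩
        exact ⟨y, h2, h1⟩
    have hCb : Bornology.IsBounded {z : ℂ | ∃ y, dist z y < ε ∧ s < f y} := by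
      rw [hC]
      exact hAb.thickening
    by_cases hA0 : volume {z : ℂ | s < f z} = 0
    · have har : ar f s = 0 := by
        unfold ar
        rw [hA0]
        rfl
      rw [har, Real.sqrt_zero, mul_zero, mul_zero, add_zero]
      exact ENNReal.toReal_nonneg
    · have hbm := bmBall {z : ℂ | s < f z} {z : ℂ | ∃ y, dist z y < ε ∧ s < f y}
        hAo.measurableSet (by rw [hC]; exact Metric.isOpen_thickening.measurableSet) hAb
        hCb.measure_lt_top.ne (pos_iff_ne_zero.mpr hA0) ε hε (fun a ha z hz => ⟨a, hz, ha⟩)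
      refine le_trans ?_ hbm
      have h1 : (volume {z : ℂ | s < f z}).toReal = ar f s := rfl
      rw [h1]
      have h2 : √(ar f s) ^ 2 = ar f s := Real.sq_sqrt (ar_nonneg f s)
      have h3 : 0 ≤ (√Real.pi * ε) ^ 2 := by positivity
      nlinarith

end Pool.Agent.Lib.P6DK
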