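import Pool.Agent.Lib.P6DK.Basic

/-!
# P6DK.Slope: from the growth of the level sets to the integral of the gradient
PROOF. Let `f_ε z = sup {f y | dist z y < ε}` (`f` is bounded). For a `K`-Lipschitz `f`: `f z ≤ f_ε z ≤ f z + K ε`, `f_ε` is continuous (even Lipschitz), it vanishes
outside the `ε`-neighbourhood of the compact `tsupport f`, and `{s < f_ε} = {z | ∃ y, dist z y < ε ∧ s < f y}`. If `f` is differentiable at `z` then
`(f_ε z - f z)/ε → ‖fderiv ℝ f z‖` as `ε → 0+`: `f y - f z = D (y - z) + o(‖y - z‖)` uniformly for `dist y z < ε`, and `sup {D h | ‖h‖ < ε} = ε ‖D‖`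
(only `limsup ≤ ‖D‖` is needed: `f_ε z - f z ≤ ε (‖D‖ + η)` for small `ε`). By dominated convergence (bound `K` on a fixed bounded set, `ε < 1`)
`limsup (1/ε) ∫ (f_ε - f) ≤ ∫ ‖fderiv ℝ f z‖`. By the layer cake formula
`∫ f_ε - ∫ f = ∫_{s > 0} (|{s < f_ε}| - ar f s) ds`; the integrand divided by `ε` is `≥ 0` and, for every `s > 0`, `≥ p s` for small `ε`. Take `ε = 1/n` and Fatou's lemma
(`lintegral_liminf_le`).
-/

set_option autoImplicit false

open MeasureTheory Set Filter Topology Metric Complex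
open scoped ENNReal NNReal

namespace Pool.Agent.Lib.P6DK

namespace SlopeAux

/-- the supremum of `f` over the ball -/
noncomputable def F (f : ℂ → ℝ) (ε : ℝ) (z : ℂ) : ℝ := sSup (f '' ball z ε)

/-- the slope -/
noncomputable def G (f : ℂ → ℝ) (ε : ℝ) (z : ℂ) : ℝ := (F f ε z - f z) / ε

variable {f : ℂ → ℝ} {ε : ℝ}

theorem bddI (hb : BddAbove (range f)) (z : ℂ) : BddAbove (f '' ball z ε) :=
  hb.mono (image_subset_range _ _)

theorem neI (hε : 0 < ε) (z : ℂ) : (f '' ball z ε).Nonempty := ⟨f z, z, mem_ball_self hε, rfl⟩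

theorem F_lt (hb : BddAbove (range f)) (hε : 0 < ε) (s : ℝ) (z : ℂ) :
    s < F f ε z ↔ ∃ y, dist z y < ε ∧ s < f y := by
  unfold F
  rw [lt_csSup_iff (bddI hb z) (neI hε z)]
  constructor
  · rintro ⟨_, ⟨y, hy, rfl⟩, hs⟩
    exact ⟨y, by rw [dist_comm]; exact hy, hs⟩
  · rintro ⟨y, hy, hs⟩
    exact ⟨_, ⟨y, by rw [mem_ball, dist_comm]; exact hy, rfl⟩, hs⟩

theorem F_ge (hb : BddAbove (range f)) (hε : 0 < ε) (z : ℂ) : f z ≤ F f ε z :=
  le_csSup (bddI hb z) ⟨z, mem_ball_self hε, rfl⟩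

theorem F_le (hε : 0 < ε) {z : ℂ} {c : ℝ} (h : ∀ y, dist y z < ε → f y ≤ c) : F f ε z ≤ c := by
  refine csSup_le (neI hε z) ?_
  rintro _ ⟨y, hy, rfl⟩
  exact h y hy

theorem F_meas (hb : BddAbove (range f)) (hε : 0 < ε) : Measurable (F f ε) := by
  refine measurable_of_Ioi fun s => ?_
  have h : F f ε ⁻¹' Ioi s = ⋃ y ∈ {y | s < f y}, ball y ε := by
    ext z
    rw [mem_preimage, mem_Ioi, F_lt hb hε, mem_iUnion₂]
    constructor
    · rintro ⟨y, h1, h2⟩
      exact ⟨y, h2, h1⟩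
    · rintro ⟨y, h1, h2⟩
      exact ⟨y, h2, h1⟩
  rw [h]
  exact (isOpen_biUnion fun y _ => isOpen_ball).measurableSet

theorem G_nonneg (hb : BddAbove (range f)) (hε : 0 < ε) (z : ℂ) : 0 ≤ G f ε z :=
  div_nonneg (sub_nonneg.2 (F_ge hb hε z)) hε.le

theorem G_meas (hb : BddAbove (range f)) (hf : Continuous f) (hε : 0 < ε) : Measurable (G f ε) :=
  ((F_meas hb hε).sub hf.measurable).div_const ε

theorem G_le {K : ℝ≥0} (hK : LipschitzWith K f) (h0 : ∀ z, 0 ≤ f z)
    (hε : 0 < ε) (hε1 : ε ≤ 1) (z : ℂ) :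
    G f ε z ≤ (cthickening 1 (tsupport f)).indicator (fun _ => (K : ℝ)) z := by
  by_cases hz : z ∈ cthickening 1 (tsupport f)
  · rw [indicator_of_mem hz]
    unfold G
    rw [div_le_iff₀ hε, sub_le_iff_le_add]
    refine F_le hε fun y hy => ?_
    have h1 := hK.dist_le_mul y z
    rw [Real.dist_eq] at h1
    have h2 := (abs_le.1 (h1.trans (mul_le_mul_of_nonneg_left hy.le K.2))).2
    have h3 : ((⟨(K : ℝ), K.2⟩ : ℝ≥0) : ℝ) = K := rfl
    linarith
  · rw [indicator_of_notMem hz]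
    have hout : ∀ y, dist y z < ε → f y = 0 := by
      intro y hy
      apply image_eq_zero_of_notMem_tsupport
      intro hyt
      apply hz
      refine thickening_subset_cthickening 1 _ ?_
      rw [mem_thickening_iff]
      exact ⟨y, hyt, by rw [dist_comm]; exact hy.trans_le hε1⟩
    have h1 : F f ε z ≤ 0 := F_le hε fun y hy => (hout y hy).le
    have h2 : G f ε z ≤ 0 := by
      unfold G
      rw [div_le_iff₀ hε, zero_mul]
      have := h0 z
      linarith
    exact h2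

theorem G_lim {z : ℂ} (hd : DifferentiableAt ℝ f z) {η : ℝ} (hη : 0 < η) :
    ∃ δ > 0, ∀ ε, 0 < ε → ε < δ → G f ε z ≤ ‖fderiv ℝ f z‖ + η := by
  have h1 := (hasFDerivAt_iff_isLittleO.1 hd.hasFDerivAt).def hη
  rw [Metric.eventually_nhds_iff] at h1
  obtain ⟨δ, hδ, h1⟩ := h1
  refine ⟨δ, hδ, fun ε hε hεδ => ?_⟩
  unfold G
  rw [div_le_iff₀ hε, sub_le_iff_le_add]
  refine F_le hε fun y hy => ?_
  have h2 := h1 (hy.trans hεδ)
  have h3 : ‖fderiv ℝ f z (y - z)‖ ≤ ‖fderiv ℝ f z‖ * ‖y - z‖ := ContinuousLinearMap.le_opNorm _ _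
  have h4 : ‖y - z‖ ≤ ε := by
    rw [← dist_eq_norm]
    exact hy.le
  have h5 : (‖fderiv ℝ f z‖ + η) * ‖y - z‖ ≤ (‖fderiv ℝ f z‖ + η) * ε :=
    mul_le_mul_of_nonneg_left h4 (by positivity)
  have h6 := (abs_le.1 ((Real.norm_eq_abs _) ▸ h2)).2
  have h7 := (abs_le.1 ((Real.norm_eq_abs _) ▸ h3)).2
  nlinarith

end SlopeAux

open SlopeAux in
theorem slope (f : ℂ → ℝ) (hf : LC f) (h0 : ∀ z, 0 ≤ f z) (p : ℝ → ℝ) (hp : IntegrableOn p (Ioi 0))
    (hp0 : ∀ s, 0 ≤ p s)
    (H : ∀ s > 0, ∃ ε₀ > 0, ∀ ε, 0 < ε → ε < ε₀ →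
      ar f s + ε * p s ≤ (volume {z : ℂ | ∃ y, dist z y < ε ∧ s < f y}).toReal) :
    ∫ s in Ioi (0 : ℝ), p s ≤ ∫ z, ‖fderiv ℝ f z‖ := by
  classical
  obtain ⟨K, hK⟩ := hf.lip
  obtain ⟨M, hM0, hM⟩ := hf.bdd
  have hcont := hf.cont
  have hb : BddAbove (range f) := ⟨M, by rintro _ ⟨z, rfl⟩; exact (abs_le.1 (hM z)).2⟩
  have hC : IsCompact (cthickening 1 (tsupport f)) := hf.cpt.isCompact.cthickening
  have hB : Integrable ((cthickening 1 (tsupport f)).indicator (fun _ : ℂ => (K : ℝ))) := by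
    rw [integrable_indicator_iff hC.measurableSet]
    exact integrableOn_const hC.measure_lt_top.ne
  -- the sequence
  obtain ⟨e, he⟩ : ∃ e : ℕ → ℝ, e = fun n : ℕ => 1 / ((n : ℝ) + 1) := ⟨_, rfl⟩
  have hepos : ∀ n, 0 < e n := by
    intro n
    rw [he]
    positivity
  have hele : ∀ n, e n ≤ 1 := by
    intro n
    rw [he]
    have : (0 : ℝ) ≤ n := Nat.cast_nonneg n
    exact (div_le_one (by positivity)).2 (by linarith)
  have helim : Tendsto e atTop (𝓝 0) := by
    rw [he]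
    exact tendsto_one_div_add_atTop_nhds_zero_nat
  have hesmall : ∀ δ > 0, ∀ᶠ n in atTop, e n < δ := fun δ hδ => helim.eventually_lt_const hδ
  have hGint : ∀ n, Integrable (G f (e n)) := by
    intro n
    refine hB.mono' (G_meas hb hcont (hepos n)).aestronglyMeasurable ?_
    refine Eventually.of_forall fun z => ?_
    rw [Real.norm_eq_abs, abs_of_nonneg (G_nonneg hb (hepos n) z)]
    exact G_le hK h0 (hepos n) (hele n) z
  have hFeq : ∀ n z, F f (e n) z = f z + e n * G f (e n) z := by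
    intro n z
    unfold G
    rw [mul_div_cancel₀ _ (hepos n).ne']
    ring
  have hFint : ∀ n, Integrable (F f (e n)) := by
    intro n
    have h1 : F f (e n) = fun z => f z + e n * G f (e n) z := funext (hFeq n)
    rw [h1]
    exact hf.int.add ((hGint n).const_mul _)
  have hF0 : ∀ n z, 0 ≤ F f (e n) z := fun n z => (h0 z).trans (F_ge hb (hepos n) z)
  -- the upper bound
  have hlim : Tendsto (fun n => ∫ z, max (G f (e n) z) ‖fderiv ℝ f z‖) atTop
      (𝓝 (∫ z, ‖fderiv ℝ f z‖)) := by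
    refine tendsto_integral_of_dominated_convergence
      (fun z => (cthickening 1 (tsupport f)).indicator (fun _ : ℂ => (K : ℝ)) z + ‖fderiv ℝ f z‖)
      ?_ ?_ ?_ ?_
    · intro n
      exact ((G_meas hb hcont (hepos n)).max (measurable_fderiv ℝ f).norm).aestronglyMeasurable
    · exact hB.add hf.int_fd
    · intro n
      refine Eventually.of_forall fun z => ?_
      have h1 := G_nonneg hb (hepos n) z
      have h2 := G_le hK h0 (hepos n) (hele n) z
      have h3 : 0 ≤ ‖fderiv ℝ f z‖ := norm_nonneg _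
      rw [Real.norm_eq_abs, abs_of_nonneg (le_max_of_le_left h1)]
      exact max_le (by linarith) (by linarith)
    · filter_upwards [hf.diff_ae] with z hz
      rw [Metric.tendsto_atTop]
      intro η hη
      obtain ⟨δ, hδ, h1⟩ := G_lim hz (half_pos hη)
      obtain ⟨N, hN⟩ := eventually_atTop.1 (hesmall δ hδ)
      refine ⟨N, fun n hn => ?_⟩
      have h2 := h1 (e n) (hepos n) (hN n hn)
      rw [Real.dist_eq, abs_of_nonneg (sub_nonneg.2 (le_max_right _ _))]
      have h3 : max (G f (e n) z) ‖fderiv ℝ f z‖ ≤ ‖fderiv ℝ f z‖ + η / 2 :=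
        max_le h2 (by linarith)
      linarith
  have hup : ∀ n, ∫ z, G f (e n) z ≤ ∫ z, max (G f (e n) z) ‖fderiv ℝ f z‖ := by
    intro n
    refine integral_mono (hGint n) ?_ fun z => le_max_left _ _
    exact (hGint n).sup hf.int_fd
  -- layer cake
  have hla : ∫⁻ z, ENNReal.ofReal (f z) = ∫⁻ s in Ioi (0 : ℝ), volume {z : ℂ | s < f z} :=
    lintegral_eq_lintegral_meas_lt _ (Eventually.of_forall h0) hcont.measurable.aemeasurable
  have hlb : ∀ n, ∫⁻ z, ENNReal.ofReal (F f (e n) z) =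
      ∫⁻ s in Ioi (0 : ℝ), volume {z : ℂ | s < F f (e n) z} := fun n =>
    lintegral_eq_lintegral_meas_lt _ (Eventually.of_forall (hF0 n))
      (F_meas hb (hepos n)).aemeasurable
  have hma : Measurable (fun s : ℝ => volume {z : ℂ | s < f z}) := by
    refine Antitone.measurable fun s t hst => measure_mono fun z hz => ?_
    exact lt_of_le_of_lt hst hz
  have hmb : ∀ n, Measurable (fun s : ℝ => volume {z : ℂ | s < F f (e n) z}) := by
    intro n
    refine Antitone.measurable fun s t hst => measure_mono fun z hz => ?_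
    exact lt_of_le_of_lt hst hz
  have hafin : ∫⁻ s in Ioi (0 : ℝ), volume {z : ℂ | s < f z} ≠ ⊤ := by
    rw [← hla]
    exact (Integrable.lintegral_lt_top hf.int).ne
  obtain ⟨d, hd⟩ : ∃ d : ℕ → ℝ → ℝ≥0∞, d = fun n s =>
    (volume {z : ℂ | s < F f (e n) z} - volume {z : ℂ | s < f z}) *
      (ENNReal.ofReal (e n))⁻¹ := ⟨_, rfl⟩
  have hdm : ∀ n, Measurable (d n) := by
    intro n
    rw [hd]
    exact ((hmb n).sub hma).mul_const _
  have hdint : ∀ n, ∫⁻ s in Ioi (0 : ℝ), d n s = ENNReal.ofReal (∫ z, G f (e n) z) := by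
    intro n
    have h1 : ∫⁻ s in Ioi (0 : ℝ), d n s = (∫⁻ s in Ioi (0 : ℝ),
        (volume {z : ℂ | s < F f (e n) z} - volume {z : ℂ | s < f z})) *
          (ENNReal.ofReal (e n))⁻¹ := by
      rw [hd]
      exact lintegral_mul_const _ ((hmb n).sub hma)
    have hle : ∀ s : ℝ, volume {z : ℂ | s < f z} ≤ volume {z : ℂ | s < F f (e n) z} := fun s =>
      measure_mono fun z hz => lt_of_lt_of_le hz (F_ge hb (hepos n) z)
    rw [h1, lintegral_sub hma hafin (Eventually.of_forall hle), ← hla, ← hlb n,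
      ← ofReal_integral_eq_lintegral_ofReal (hFint n) (Eventually.of_forall (hF0 n)),
      ← ofReal_integral_eq_lintegral_ofReal hf.int (Eventually.of_forall h0),
      ← ENNReal.ofReal_sub _ (integral_nonneg h0), ← div_eq_mul_inv,
      ← ENNReal.ofReal_div_of_pos (hepos n)]
    congr 1
    have h2 : ∫ z, F f (e n) z = (∫ z, f z) + e n * ∫ z, G f (e n) z := by
      rw [← integral_const_mul, ← integral_add hf.int ((hGint n).const_mul _)]
      exact integral_congr_ae (Eventually.of_forall (hFeq n))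
    rw [h2, add_sub_cancel_left, mul_div_cancel_left₀ _ (hepos n).ne']
  -- Fatou
  have hpt : ∀ s ∈ Ioi (0 : ℝ), ENNReal.ofReal (p s) ≤ liminf (fun n => d n s) atTop := by
    intro s hs
    obtain ⟨ε₀, hε₀, h1⟩ := H s hs
    refine le_liminf_of_le (by isBoundedDefault) ?_
    filter_upwards [hesmall ε₀ hε₀] with n hn
    have h2 := h1 (e n) (hepos n) hn
    have h3 : {z : ℂ | ∃ y, dist z y < e n ∧ s < f y} = {z : ℂ | s < F f (e n) z} := by
      ext z
      exact (F_lt hb (hepos n) s z).symm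
    rw [h3] at h2
    have h4 := ENNReal.ofReal_le_of_le_toReal h2
    have hfin := hf.fin (s := s) (le_of_lt hs)
    unfold ar at h4
    rw [ENNReal.ofReal_add ENNReal.toReal_nonneg (mul_nonneg (hepos n).le (hp0 s)),
      ENNReal.ofReal_toReal hfin, ENNReal.ofReal_mul (hepos n).le] at h4
    have h5 := ENNReal.le_sub_of_add_le_left hfin h4
    rw [hd]
    show ENNReal.ofReal (p s) ≤ (volume {z : ℂ | s < F f (e n) z} - volume {z : ℂ | s < f z}) *
      (ENNReal.ofReal (e n))⁻¹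
    rw [← div_eq_mul_inv, ENNReal.le_div_iff_mul_le
      (Or.inl (ENNReal.ofReal_pos.2 (hepos n)).ne') (Or.inl ENNReal.ofReal_ne_top), mul_comm]
    exact h5
  have hfat : ∫⁻ s in Ioi (0 : ℝ), ENNReal.ofReal (p s) ≤
      liminf (fun n => ∫⁻ s in Ioi (0 : ℝ), d n s) atTop := by
    refine le_trans ?_ (lintegral_liminf_le hdm)
    exact setLIntegral_mono' measurableSet_Ioi hpt
  have hfin2 : liminf (fun n => ∫⁻ s in Ioi (0 : ℝ), d n s) atTop ≤
      ENNReal.ofReal (∫ z, ‖fderiv ℝ f z‖) := by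
    have h1 : Tendsto (fun n => ENNReal.ofReal (∫ z, max (G f (e n) z) ‖fderiv ℝ f z‖)) atTop
        (𝓝 (ENNReal.ofReal (∫ z, ‖fderiv ℝ f z‖))) := ENNReal.tendsto_ofReal hlim
    rw [← h1.liminf_eq]
    refine liminf_le_liminf ?_
    refine Eventually.of_forall fun n => ?_
    show ∫⁻ s in Ioi (0 : ℝ), d n s ≤ _
    rw [hdint n]
    exact ENNReal.ofReal_le_ofReal (hup n)
  have hfinal := hfat.trans hfin2
  rw [← ofReal_integral_eq_lintegral_ofReal hp (Eventually.of_forall hp0),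
    ENNReal.ofReal_le_ofReal_iff (integral_nonneg fun z => norm_nonneg _)] at hfinal
  exact hfinal

end Pool.Agent.Lib.P6DK
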